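import Pool.Agent.H60.CM.Basic

/-!
# Stable surfaces of constant mean curvature spanning a circle: row ODD
-/

set_option autoImplicit false

open Set Function MeasureTheory Filter Topology
open scoped Manifold ContDiff Matrix
open Pool.Agent.H60.CM

namespace Pool.Agent.H30.CM

theorem rot_zero (y : V3) : rot 0 y = y := by
  unfold rot
  funext k
  fin_cases k <;> simp

theorem pf_ODD (h1 : T_SGN) : T_ODD := by
  intro Y c0 c1 c2 p
  have hN : Y.N (Y.τ p) = mir (Y.N p) := by
    have h := h1 Y.toDat Y.τ 0 (fun q => by rw [rot_zero]; exact Y.mirr q) p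
    rw [rot_zero] at h
    exact h
  have hx : Y.x (Y.τ p) = mir (Y.x p) := Y.mirr p
  unfold oddk kf
  rw [hN, hx]
  simp only [Matrix.vec3_dotProduct, cross_apply, Pi.add_apply, Matrix.cons_val_zero,
    Matrix.cons_val_one, Matrix.cons_val, mir]
  ring

end Pool.Agent.H30.CM
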