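import Pool.Agent.H60.CM.Basic

/-!
# Stable surfaces of constant mean curvature spanning a circle: row STA
-/

set_option autoImplicit false

open Set Function MeasureTheory Filter Topology
open scoped Manifold ContDiff Matrix
open Pool.Agent.H60.CM

namespace Pool.Agent.H30.CM

/-- composition with the symmetry -/
theorem sm_tau (Y : Sy) {g : Y.S → ℝ} (h : Y.Sm g) : Y.Sm (fun q => g (Y.τ q)) := by
  have h1 : ContMDiff (𝓡∂ 2) (𝓡∂ 2) ∞ Y.τ := Y.τ.contMDiff
  have h2 : ContMDiff (𝓡∂ 2) 𝓘(ℝ, ℝ) ∞ g := h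
  exact h2.comp h1

theorem tsup_tau (Y : Sy) (g : Y.S → ℝ) :
    tsupport (fun q => g (Y.τ q)) ⊆ Y.τ ⁻¹' (tsupport g) := by
  refine closure_minimal ?_ ((isClosed_tsupport g).preimage Y.τ.continuous)
  intro q hq
  exact subset_tsupport g (by simpa using hq)

theorem int_tau (Y : Sy) : Y.τ ⁻¹' Y.int = Y.int :=
  Diffeomorph.preimage_interior (by simp) Y.τ

theorem pf_STA (h1 : T_TAU) (h2 : T_TDI) (h3 : T_CON) : T_STA := by
  intro Y hst g hg
  have hgs : Y.Sm g := hg.1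
  have hts : Y.Sm (fun q => g (Y.τ q)) := sm_tau Y hgs
  have hint : tsupport g ⊆ Y.int := hg.2.trans inter_subset_right
  have htau1 : tsupport (fun q => g (Y.τ q)) ⊆ Y.τ ⁻¹' Y.A := fun q hq =>
    (hg.2 (tsup_tau Y g hq)).1
  have htau2 : tsupport (fun q => g (Y.τ q)) ⊆ Y.int := by
    intro q hq
    have h : q ∈ Y.τ ⁻¹' Y.int := hint (tsup_tau Y g hq)
    rwa [int_tau] at h
  have htst : Tst Y.int (fun q => g (Y.τ q)) := ⟨hts, htau2⟩
  have hgst : Tst Y.int g := ⟨hgs, hint⟩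
  have hdis : ∀ p : Y.S, p ∉ tsupport g ∨ p ∉ tsupport (fun q => g (Y.τ q)) := by
    intro p
    by_contra hcon
    push Not at hcon
    exact Set.disjoint_left.1 Y.half.disj (hg.2 hcon.1).1 (htau1 hcon.2)
  have hv : Tst Y.int (fun q => g q + (-1) * g (Y.τ q)) :=
    Tst.add hgst (Tst.mul_left (v := fun _ => (-1 : ℝ)) (Dat.Sm.const Y.toDat (-1)) htst)
  have hgc : Continuous g := Dat.Sm.cont Y.toDat hgs
  have htc : Continuous (fun q => g (Y.τ q)) := Dat.Sm.cont Y.toDat hts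
  have hmean : ∫ p, (g p + (-1) * g (Y.τ p)) ∂Y.μ = 0 := by
    rw [integral_add (Dat.cont_int Y.toDat hgc) ((Dat.cont_int Y.toDat htc).const_mul (-1)),
      integral_const_mul, h1 Y g hgc hint]
    ring
  have hQ := hst _ hv hmean
  -- the continuous density
  set Φ : Y.S → ℝ := fun p => gr Y.x g g p - sf Y.x Y.N p * g p ^ 2 with hΦ
  have hsfc : Continuous (sf Y.x Y.N) := by
    unfold sf
    refine continuous_finsetSum _ (fun k _ => ?_)
    exact (h3 Y.toDat _ _ (Dat.Sm.coord Y.toDat Y.smN k) (Dat.Sm.coord Y.toDat Y.smN k)).1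
  have hΦc : Continuous Φ := ((h3 Y.toDat g g hgs hgs).1).sub (hsfc.mul (hgc.pow 2))
  have hΦs : tsupport Φ ⊆ Y.int := by
    refine Subset.trans (closure_minimal ?_ (isClosed_tsupport g)) hint
    intro p hp
    by_contra hcon
    apply hp
    have e1 : gr Y.x g g p = 0 := gr_zero hcon
    have e2 : g p = 0 := image_eq_zero_of_notMem_tsupport hcon
    simp only [hΦ, e1, e2]
    ring
  have hpt : ∀ p : Y.S, gr Y.x (fun q => g q + (-1) * g (Y.τ q))
      (fun q => g q + (-1) * g (Y.τ q)) p -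
      sf Y.x Y.N p * (g p + (-1) * g (Y.τ p)) ^ 2 = Φ p + Φ (Y.τ p) := by
    intro p
    have m1 : MD g p := Dat.Sm.md Y.toDat hgs p
    have m2 : MD (fun q => g (Y.τ q)) p := Dat.Sm.md Y.toDat hts p
    have m3 : MD (fun q => (-1) * g (Y.τ q)) p := (md_const (-1) p).mul m2
    have c1 : gr Y.x g (fun q => g (Y.τ q)) p = 0 := by
      rcases hdis p with h | h
      · rw [gr_comm]
        exact gr_zero h
      · exact gr_zero h
    have c2 : g p * g (Y.τ p) = 0 := by
      rcases hdis p with h | h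
      · rw [image_eq_zero_of_notMem_tsupport h, zero_mul]
      · have h5 : g (Y.τ p) = 0 :=
          image_eq_zero_of_notMem_tsupport (f := fun q => g (Y.τ q)) h
        rw [h5, mul_zero]
    have e0 := h2 Y g g hgs hgs p
    rw [gr_add m1 m3, gr_const_mul m2, gr_comm _ _ g, gr_comm _ _ (fun q => g (Y.τ q)),
      gr_add m1 m3, gr_add m1 m3, gr_const_mul m2, gr_const_mul m2, c1,
      gr_comm _ (fun q => g (Y.τ q)) g, c1, e0.1]
    simp only [hΦ]
    rw [e0.2]
    linear_combination (2 * sf Y.x Y.N p) * c2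
  have hQ2 : QQ Y.x Y.N Y.μ (fun q => g q + (-1) * g (Y.τ q)) = 2 * QQ Y.x Y.N Y.μ g := by
    have e1 : QQ Y.x Y.N Y.μ (fun q => g q + (-1) * g (Y.τ q)) =
        ∫ p, (Φ p + Φ (Y.τ p)) ∂Y.μ := by
      unfold QQ
      exact integral_congr_ae (Eventually.of_forall hpt)
    have i2 : Integrable (fun p => Φ (Y.τ p)) Y.μ :=
      Dat.cont_int Y.toDat (hΦc.comp Y.τ.continuous)
    rw [e1, integral_add (Dat.cont_int Y.toDat hΦc) i2, h1 Y Φ hΦc hΦs]
    have e2 : QQ Y.x Y.N Y.μ g = ∫ p, Φ p ∂Y.μ := rfl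
    rw [e2]
    ring
  rw [hQ2] at hQ
  linarith

end Pool.Agent.H30.CM
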